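import Pool.Agent.R246.SK.Defs

/-!
# SK-FT1: Fourier coefficients of smooth periodic functions
-/

set_option autoImplicit false

open scoped ContDiff ComplexConjugate
open Filter MeasureTheory

namespace Pool.Agent.R650.SK

open Pool.Agent.R246.SK

theorem ee_norm (n : ℤ) (t : ℝ) : ‖ee n t‖ = 1 := by
  unfold ee
  rw [show Complex.I * (n : ℂ) * (t : ℂ) = (((n : ℝ) * t : ℝ) : ℂ) * Complex.I by push_cast; ring]
  exact Complex.norm_exp_ofReal_mul_I _

theorem ee_zero (n : ℤ) : ee n 0 = 1 := by simp [ee]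

theorem ee_two_pi (n : ℤ) : ee n (2 * Real.pi) = 1 := by
  unfold ee
  rw [show Complex.I * (n : ℂ) * ((2 * Real.pi : ℝ) : ℂ) = (n : ℂ) * (2 * Real.pi * Complex.I) by
    push_cast; ring]
  exact Complex.exp_int_mul_two_pi_mul_I n

theorem ee_deriv (n : ℤ) (t : ℝ) : HasDerivAt (ee n) (Complex.I * n * ee n t) t := by
  have h1 : HasDerivAt (fun s : ℝ => Complex.I * (n : ℂ) * (s : ℂ)) (Complex.I * n * 1) t :=
    (Complex.ofRealCLM.hasDerivAt (x := t)).const_mul _
  have h2 := h1.cexp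
  have h3 : HasDerivAt (ee n) (Complex.exp (Complex.I * (n : ℂ) * (t : ℂ)) *
      (Complex.I * n * 1)) t := h2
  rw [mul_one, mul_comm] at h3
  exact h3

theorem ee_cont (n : ℤ) : Continuous (ee n) := by
  unfold ee
  fun_prop

theorem sp_deriv {f : ℝ → ℂ} (hf : SP f) : SP (deriv f) := by
  refine ⟨(contDiff_infty_iff_deriv.1 hf.1).2, fun t => ?_⟩
  have h : (fun s => f (s + 2 * Real.pi)) = f := funext hf.2
  have h2 := deriv_comp_add_const (f := f) (a := 2 * Real.pi) (x := t)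
  rw [← h2]
  exact congrArg (fun g => deriv g t) h

theorem fc_deriv {f : ℝ → ℂ} (hf : SP f) (n : ℤ) :
    fc (deriv f) n = Complex.I * n * fc f n := by
  have hd := sp_deriv hf
  have h1 := intervalIntegral.integral_deriv_mul_eq_sub (a := 0) (b := 2 * Real.pi)
    (u := f) (v := ee (-n)) (u' := deriv f) (v' := fun t => Complex.I * ((-n : ℤ) : ℂ) * ee (-n) t)
    (fun x _ => ((contDiff_infty_iff_deriv.1 hf.1).1 x).hasDerivAt)
    (fun x _ => ee_deriv (-n) x)
    (hd.1.continuous.intervalIntegrable _ _)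
    ((continuous_const.mul (ee_cont (-n))).intervalIntegrable _ _)
  have hper : f (2 * Real.pi) = f 0 := by
    have := hf.2 0
    rwa [zero_add] at this
  rw [ee_zero, ee_two_pi, hper, sub_self] at h1
  have i1 : IntervalIntegrable (fun t => deriv f t * ee (-n) t) volume 0 (2 * Real.pi) :=
    (hd.1.continuous.mul (ee_cont (-n))).intervalIntegrable _ _
  have i2 : IntervalIntegrable (fun t => f t * (Complex.I * ((-n : ℤ) : ℂ) * ee (-n) t)) volume 0
      (2 * Real.pi) :=
    (hf.1.continuous.mul (continuous_const.mul (ee_cont (-n)))).intervalIntegrable _ _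
  rw [intervalIntegral.integral_add i1 i2] at h1
  have h2 : ∫ t in (0:ℝ)..(2 * Real.pi), f t * (Complex.I * ((-n : ℤ) : ℂ) * ee (-n) t) =
      -(Complex.I * n) * ∫ t in (0:ℝ)..(2 * Real.pi), f t * ee (-n) t := by
    rw [← intervalIntegral.integral_const_mul]
    refine intervalIntegral.integral_congr fun t _ => ?_
    push_cast
    ring
  rw [h2] at h1
  unfold fc
  have h3 : ∫ t in (0:ℝ)..(2 * Real.pi), deriv f t * ee (-n) t =
      Complex.I * n * ∫ t in (0:ℝ)..(2 * Real.pi), f t * ee (-n) t := by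
    linear_combination h1
  rw [h3]
  ring

theorem fc_le {f : ℝ → ℂ} (hf : SP f) (n : ℤ) :
    ‖fc f n‖ ≤ (1 / (2 * Real.pi)) * ∫ t in (0 : ℝ)..(2 * Real.pi), ‖f t‖ := by
  unfold fc
  have hpi := Real.pi_pos
  rw [norm_mul, Complex.norm_real, Real.norm_eq_abs, abs_of_pos (by positivity)]
  refine mul_le_mul_of_nonneg_left ?_ (by positivity)
  refine (intervalIntegral.norm_integral_le_integral_norm (by positivity)).trans (le_of_eq ?_)
  refine intervalIntegral.integral_congr fun t _ => ?_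
  simp only [norm_mul, ee_norm, mul_one]

theorem decay (q : ℕ) : ∀ f : ℝ → ℂ, SP f → ∃ C : ℝ, ∀ n : ℤ, ‖fc f n‖ * |(n : ℝ)| ^ q ≤ C := by
  induction q with
  | zero =>
    intro f hf
    exact ⟨_, fun n => by rw [pow_zero, mul_one]; exact fc_le hf n⟩
  | succ q ih =>
    intro f hf
    obtain ⟨C, hC⟩ := ih _ (sp_deriv hf)
    refine ⟨C, fun n => ?_⟩
    have := hC n
    rw [fc_deriv hf, norm_mul, norm_mul, Complex.norm_I, one_mul] at this
    have h2 : ‖(n : ℂ)‖ = |(n : ℝ)| := by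
      rw [← Complex.ofReal_intCast, Complex.norm_real, Real.norm_eq_abs]
    rw [h2] at this
    rw [pow_succ]
    linarith [this, mul_comm (‖fc f n‖) (|(n:ℝ)|), show |(n:ℝ)| * ‖fc f n‖ * |(n:ℝ)| ^ q =
      ‖fc f n‖ * (|(n:ℝ)| ^ q * |(n:ℝ)|) by ring]

theorem rd {f : ℝ → ℂ} (hf : SP f) : RD (fc f) := by
  intro q
  obtain ⟨C0, h0⟩ := decay 0 f hf
  obtain ⟨C, hC⟩ := decay q f hf
  refine ⟨2 ^ q * (C0 + C), fun n => ?_⟩
  have hx : 0 ≤ |(n : ℝ)| := abs_nonneg _
  have h1 : (1 + |(n : ℝ)|) ^ q ≤ 2 ^ q * (1 + |(n : ℝ)| ^ q) := by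
    rcases le_total (|(n : ℝ)|) 1 with h | h
    · calc (1 + |(n : ℝ)|) ^ q ≤ 2 ^ q := pow_le_pow_left₀ (by positivity) (by linarith) q
        _ ≤ 2 ^ q * (1 + |(n : ℝ)| ^ q) := by
          have : 0 ≤ |(n : ℝ)| ^ q := pow_nonneg hx q
          nlinarith [show (0:ℝ) < 2 ^ q by positivity]
    · calc (1 + |(n : ℝ)|) ^ q ≤ (2 * |(n : ℝ)|) ^ q := pow_le_pow_left₀ (by positivity) (by linarith) q
        _ = 2 ^ q * |(n : ℝ)| ^ q := mul_pow _ _ _
        _ ≤ 2 ^ q * (1 + |(n : ℝ)| ^ q) := by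
          nlinarith [show (0:ℝ) < 2 ^ q by positivity]
  have h2 := h0 n
  rw [pow_zero, mul_one] at h2
  calc ‖fc f n‖ * (1 + |(n : ℝ)|) ^ q ≤ ‖fc f n‖ * (2 ^ q * (1 + |(n : ℝ)| ^ q)) :=
        mul_le_mul_of_nonneg_left h1 (norm_nonneg _)
    _ = 2 ^ q * (‖fc f n‖ + ‖fc f n‖ * |(n : ℝ)| ^ q) := by ring
    _ ≤ 2 ^ q * (C0 + C) := by
        apply mul_le_mul_of_nonneg_left (add_le_add h2 (hC n)) (by positivity)

theorem summ {c : ℤ → ℂ} (h : RD c) : Summable c := by
  obtain ⟨C, hC⟩ := h 2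
  have h1 : Summable fun n : ℤ => C * (1 / ((n : ℝ) ^ 2)) := by
    refine Summable.mul_left _ ?_
    exact Real.summable_one_div_int_pow.2 (by norm_num)
  have h2 : Summable fun n : ℤ => ‖c n‖ := by
    refine Summable.of_norm_bounded_eventually (g := fun n : ℤ => C * (1 / ((n : ℝ) ^ 2))) h1 ?_
    rw [Filter.eventually_cofinite]
    refine (Set.finite_singleton (0 : ℤ)).subset fun n hn => ?_
    by_contra hne
    apply hn
    rw [norm_norm]
    have hn0 : (n : ℝ) ≠ 0 := by exact_mod_cast hne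
    have hp : 0 < (n : ℝ) ^ 2 := by positivity
    have h3 := hC n
    have h4 : (n : ℝ) ^ 2 ≤ (1 + |(n : ℝ)|) ^ 2 := by
      rw [← sq_abs (n : ℝ)]
      exact pow_le_pow_left₀ (abs_nonneg _) (by linarith) 2
    rw [mul_one_div, le_div_iff₀ hp]
    exact (mul_le_mul_of_nonneg_left h4 (norm_nonneg _)).trans h3
  exact h2.of_norm

theorem pointwise {f : ℝ → ℂ} (hf : SP f) (t : ℝ) :
    HasSum (fun n : ℤ => fc f n * ee n t) (f t) := by
  haveI : Fact (0 < 2 * Real.pi) := ⟨by positivity⟩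
  have hper : Function.Periodic f (2 * Real.pi) := hf.2
  let F : C(AddCircle (2 * Real.pi), ℂ) :=
    ⟨hper.lift, by
      have : Continuous f := hf.1.continuous
      exact continuous_coinduced_dom.2 this⟩
  have hF : ∀ x : ℝ, F (x : AddCircle (2 * Real.pi)) = f x := fun x => rfl
  have hfou : ∀ (n : ℤ) (x : ℝ), fourier n (x : AddCircle (2 * Real.pi)) = ee n x := by
    intro n x
    rw [fourier_coe_apply]
    unfold ee
    congr 1
    have : ((Real.pi : ℝ) : ℂ) ≠ 0 := by exact_mod_cast Real.pi_ne_zero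
    push_cast
    field_simp
  have hco : ∀ n, fourierCoeff F n = fc f n := by
    intro n
    rw [fourierCoeff_eq_intervalIntegral F n 0, zero_add]
    unfold fc
    rw [Complex.real_smul]
    congr 1
    refine intervalIntegral.integral_congr fun x _ => ?_
    change fourier (-n) (x : AddCircle (2 * Real.pi)) • F (x : AddCircle (2 * Real.pi)) = f x * ee (-n) x
    rw [hfou, hF, smul_eq_mul, mul_comm]
  have hs : Summable (fourierCoeff F) := by
    have : fourierCoeff F = fc f := funext hco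
    rw [this]
    exact summ (rd hf)
  have h5 := has_pointwise_sum_fourier_series_of_summable hs (t : AddCircle (2 * Real.pi))
  rw [hF] at h5
  have h6 : (fun n : ℤ => fc f n * ee n t) = fun i => fourierCoeff F i •
      fourier i (t : AddCircle (2 * Real.pi)) := by
    funext n
    rw [hco, hfou, smul_eq_mul]
  rw [h6]
  exact h5

theorem s_ft1 : S_FT1 := fun _ hf => ⟨rd hf, pointwise hf, sp_deriv hf, fc_deriv hf⟩

end Pool.Agent.R650.SK
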